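import Pool.Agent.H2.INV.Ent3

/-! Raw entropy lemmas: congruence on the support, the entropic BSG lemma, slices. -/

set_option autoImplicit false

namespace H9F2

open H2INV Finset

noncomputable section

variable {Om : Type*} [Fintype Om]

lemma fib_congr_supp {α β : Type*} {m : Om → ℝ} (hm : IsPM m) {f : Om → α} {g : Om → β}
    (h : ∀ w w', 0 < m w → 0 < m w' → (f w = f w' ↔ g w = g w')) {w : Om} (hw : 0 < m w) :
    fib m f w = fib m g w := by
  classical
  unfold fib
  refine Finset.sum_congr rfl fun w' _ => ?_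
  rcases (hm.nonneg w').eq_or_lt with h0 | h0
  · rw [← h0]; simp
  · simp only [h w' w h0 hw]

/-- the entropy only depends on the kernel on the support -/
lemma ent_congr_supp {α β : Type*} {m : Om → ℝ} (hm : IsPM m) {f : Om → α} {g : Om → β}
    (h : ∀ w w', 0 < m w → 0 < m w' → (f w = f w' ↔ g w = g w')) : ent m f = ent m g := by
  unfold ent
  refine Finset.sum_congr rfl fun w _ => ?_
  rcases (hm.nonneg w).eq_or_lt with h0 | h0
  · rw [← h0]; simp
  · rw [fib_congr_supp hm h h0]

/-- a function of `g` on the support has smaller entropy -/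
lemma ent_mono_supp {α β : Type*} {m : Om → ℝ} (hm : IsPM m) {f : Om → α} {g : Om → β}
    (h : ∀ w w', 0 < m w → 0 < m w' → g w = g w' → f w = f w') : ent m f ≤ ent m g := by
  have h1 : ent m (pr f g) = ent m g := ent_congr_supp hm fun w w' hw hw' => by
    rw [pr_eq]
    exact ⟨fun a => a.2, fun a => ⟨h w w' hw hw' a, a⟩⟩
  rw [← h1]
  exact ent_mono hm fun w w' a => ((pr_eq f g w w').1 a).1

/-- subadditivity given `h` -/
lemma ent_pair_le {α β γ : Type*} {m : Om → ℝ} (hm : IsPM m) (f : Om → α) (g : Om → β)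
    (h : Om → γ) : ent m (pr (pr f g) h) ≤ ent m (pr f h) + ent m (pr g h) - ent m h := by
  have := ent_submod hm f g h
  linarith

lemma cprod_pos {γ : Type*} {m : Om → ℝ} (hm : IsPM m) (c : Om → γ) {w : Om × Om}
    (h : 0 < cprod m c w) : c w.1 = c w.2 ∧ 0 < m w.1 ∧ 0 < m w.2 := by
  have h1 : c w.1 = c w.2 := by
    by_contra hc
    rw [cprod_eq_zero m c hc] at h
    exact lt_irrefl _ h
  refine ⟨h1, ?_, ?_⟩
  · rcases (hm.nonneg w.1).eq_or_lt with h2 | h2
    · exfalso; unfold cprod at h; rw [if_pos h1, ← h2] at h; simp at h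
    · exact h2
  · rcases (hm.nonneg w.2).eq_or_lt with h2 | h2
    · exfalso; unfold cprod at h; rw [if_pos h1, ← h2] at h; simp at h
    · exact h2

variable {W : Type*} [AddCommGroup W]

/-- Entropic Balog-Szemeredi-Gowers in characteristic two. -/
theorem bsg (h2 : ∀ x : W, x + x = 0) {ζ : Type*} {m : Om → ℝ} (hm : IsPM m) (A B C : Om → W)
    (hC : ∀ w, C w = A w + B w) (Z : Om → ζ) :
    cent (cprod m (pr C Z)) (fun w => A w.1 + A w.2) (fun w => pr C Z w.1)
      ≤ 2 * cent m A Z + 2 * cent m B Z + cent m C Z - 2 * cent m (pr A B) Z := by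
  set c := pr C Z with hc
  set μ := cprod m c with hμ
  have hμP : IsPM μ := isPM_cprod hm c
  have hs : ∀ w, 0 < μ w → C w.1 = C w.2 ∧ Z w.1 = Z w.2 := fun w hw => by
    have := (cprod_pos hm c hw).1
    rw [hc, pr_eq] at this
    exact this
  have hB : ∀ w, B w = A w + C w := fun w => by
    rw [hC, ← add_assoc, h2, zero_add]
  have fstW : ∀ (f : Om → W × ζ), ent μ (fun w => f w.1) = ent m f := fun f =>
    ent_comp_of_mp (mp_cprod_fst hm c) f
  have fstZ : ∀ (f : Om → ζ), ent μ (fun w => f w.1) = ent m f := fun f =>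
    ent_comp_of_mp (mp_cprod_fst hm c) f
  have snd : ∀ (f : Om → W × ζ), ent μ (fun w => f w.2) = ent m f := fun f =>
    ent_comp_of_mp (mp_cprod_snd hm c) f
  -- the variables on the pair space
  let A1 : Om × Om → W := fun w => A w.1
  let A2 : Om × Om → W := fun w => A w.2
  let B1 : Om × Om → W := fun w => B w.1
  let B2 : Om × Om → W := fun w => B w.2
  let Z1 : Om × Om → ζ := fun w => Z w.1
  let S : Om × Om → W := fun w => A w.1 + A w.2 + C w.1
  have hsub := ent_submod hμP (pr A1 B2) (pr A2 B1) (pr S Z1)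
  -- (1) the join
  have e1 : ent m (pr A c) + ent m (pr A c) - ent m c
      ≤ ent μ (pr (pr (pr A1 B2) (pr A2 B1)) (pr S Z1)) := by
    have h1 := ent_cprod hm c A A
    have h3 : ent μ (fun w => ((A w.1, A w.2), c w.1))
        ≤ ent μ (pr (pr (pr A1 B2) (pr A2 B1)) (pr S Z1)) := by
      refine ent_mono hμP fun w w' h => ?_
      simp only [pr_eq] at h
      obtain ⟨⟨⟨a1, _⟩, ⟨a2, b1⟩⟩, ⟨_, z⟩⟩ := h
      simp only [hc, Prod.mk.injEq, pr_eq]
      refine ⟨⟨a1, a2⟩, ?_, z⟩
      have a1' : A w.1 = A w'.1 := a1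
      have b1' : B w.1 = B w'.1 := b1
      rw [hC, hC, a1', b1']
    linarith
  -- (2) the two pairs
  have e2 : ent μ (pr (pr A1 B2) (pr S Z1)) ≤ ent m (pr A Z) + ent m (pr B Z) - ent m Z := by
    have h3 : ent μ (pr (pr A1 B2) (pr S Z1)) = ent μ (pr (pr A1 B2) Z1) := by
      refine ent_congr_supp hμP fun w w' hw hw' => ?_
      simp only [pr_eq]
      refine ⟨fun h => ⟨h.1, h.2.2⟩, fun h => ⟨h.1, ?_, h.2⟩⟩
      have a1 : A w.1 = A w'.1 := h.1.1
      have b2 : B w.2 = B w'.2 := h.1.2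
      have k1 : S w = A w.1 + B w.2 := by
        show A w.1 + A w.2 + C w.1 = _
        rw [hB w.2, (hs w hw).1, add_assoc]
      have k2 : S w' = A w'.1 + B w'.2 := by
        show A w'.1 + A w'.2 + C w'.1 = _
        rw [hB w'.2, (hs w' hw').1, add_assoc]
      rw [k1, k2, a1, b2]
    have h4 := ent_pair_le hμP A1 B2 Z1
    have h5 : ent μ (pr A1 Z1) = ent m (pr A Z) := fstW (pr A Z)
    have h6 : ent μ (pr B2 Z1) = ent m (pr B Z) := by
      rw [← snd (pr B Z)]
      refine ent_congr_supp hμP fun w w' hw hw' => ?_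
      simp only [pr_eq]
      have z1 : Z1 w = Z w.2 := (hs w hw).2
      have z2 : Z1 w' = Z w'.2 := (hs w' hw').2
      rw [z1, z2]
    have h7 : ent μ Z1 = ent m Z := fstZ Z
    rw [h3]
    linarith
  have e3 : ent μ (pr (pr A2 B1) (pr S Z1)) ≤ ent m (pr A Z) + ent m (pr B Z) - ent m Z := by
    have h3 : ent μ (pr (pr A2 B1) (pr S Z1)) = ent μ (pr (pr A2 B1) Z1) := by
      refine ent_congr_supp hμP fun w w' hw hw' => ?_
      simp only [pr_eq]
      refine ⟨fun h => ⟨h.1, h.2.2⟩, fun h => ⟨h.1, ?_, h.2⟩⟩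
      have a1 : A w.2 = A w'.2 := h.1.1
      have b2 : B w.1 = B w'.1 := h.1.2
      have k1 : S w = A w.2 + B w.1 := by
        show A w.1 + A w.2 + C w.1 = _
        rw [hB w.1]; abel
      have k2 : S w' = A w'.2 + B w'.1 := by
        show A w'.1 + A w'.2 + C w'.1 = _
        rw [hB w'.1]; abel
      rw [k1, k2, a1, b2]
    have h4 := ent_pair_le hμP A2 B1 Z1
    have h5 : ent μ (pr B1 Z1) = ent m (pr B Z) := fstW (pr B Z)
    have h6 : ent μ (pr A2 Z1) = ent m (pr A Z) := by
      rw [← snd (pr A Z)]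
      refine ent_congr_supp hμP fun w w' hw hw' => ?_
      simp only [pr_eq]
      have z1 : Z1 w = Z w.2 := (hs w hw).2
      have z2 : Z1 w' = Z w'.2 := (hs w' hw').2
      rw [z1, z2]
    have h7 : ent μ Z1 = ent m Z := fstZ Z
    rw [h3]
    linarith
  -- (3) the meet
  have e4 : cent μ (fun w => A w.1 + A w.2) (fun w => c w.1) ≤ ent μ (pr S Z1) - ent m Z := by
    have h3 : cent μ (fun w => A w.1 + A w.2) (fun w => c w.1) = cent μ S (fun w => c w.1) := by
      refine cent_congr μ (fun _ _ => Iff.rfl) fun w w' h => ?_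
      have h' : C w.1 = C w'.1 := by
        rw [hc, pr_eq] at h
        exact h.1
      have k1 : S w = (A w.1 + A w.2) + C w.1 := rfl
      have k2 : S w' = (A w'.1 + A w'.2) + C w'.1 := rfl
      rw [k1, k2, h', add_left_inj]
    have h4 : cent μ S (fun w => c w.1) ≤ cent μ S Z1 := cent_anti hμP S fun w w' h => by
      rw [hc, pr_eq] at h
      exact h.2
    have h5 : cent μ S Z1 = ent μ (pr S Z1) - ent m Z := by
      unfold cent
      have : ent μ Z1 = ent m Z := fstZ Z
      rw [this]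
    rw [h3]
    linarith
  have e5 : ent m (pr A c) = ent m (pr (pr A B) Z) := ent_congr m fun w w' => by
    simp only [hc, pr_eq]
    constructor
    · rintro ⟨a, b, d⟩
      refine ⟨⟨a, ?_⟩, d⟩
      rw [hB, hB, a, b]
    · rintro ⟨⟨a, b⟩, d⟩
      refine ⟨a, ?_, d⟩
      rw [hC, hC, a, b]
  have e6 : cent m C Z = ent m c - ent m Z := rfl
  rw [e5] at e1
  rw [e6]
  unfold cent at e4 ⊢
  linarith

end

end H9F2
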