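import Pool.Agent.H2.INV.Ent2
import Pool.Agent.H2.INV.Ent3

/-! Families of random variables with side information in ONE finite group `E` of exponent two.
Subgroups `V` of `E` play the role of the ambient space; restriction only adds a label. -/

set_option autoImplicit false

namespace F2

open H2INV Finset

noncomputable section

/-- groups of exponent two -/
class Two (E : Type) [AddCommGroup E] : Prop where
  two : ∀ x : E, x + x = 0

instance (n : ℕ) : Two (Fin n → ZMod 2) := ⟨fun x => by
  funext i
  simp only [Pi.add_apply, Pi.zero_apply]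
  exact CharTwo.add_self_eq_zero _⟩

/-- A family `(X | J)`: a finite probability space with an `E`-valued variable and a label. -/
structure Fam (E : Type) where
  Om : Type
  fin : Fintype Om
  m : Om → ℝ
  hm : IsPM m
  X : Om → E
  St : Type
  J : Om → St

attribute [instance] Fam.fin

variable {E : Type} [AddCommGroup E]

/-- class of `x` modulo `V` -/
def q (V : AddSubgroup E) (x : E) : E ⧸ V := QuotientAddGroup.mk x

/-- log of the size of a subgroup -/
def ls (V : AddSubgroup E) : ℝ := Real.log (Nat.card V)

/-- entropy of `X` given the label -/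
def H (U : Fam E) : ℝ := cent U.m U.X U.J

/-- entropy of `X` smeared by the uniform law of `V`, given the label -/
def hh (U : Fam E) (V : AddSubgroup E) : ℝ := cent U.m (fun w => q V (U.X w)) U.J + ls V

/-- the label determines the class of `X` modulo `V` (the family lives in V) -/
def In (U : Fam E) (V : AddSubgroup E) : Prop := ∀ v w, U.J v = U.J w → U.X v - U.X w ∈ V

/-- `s`-spread in the ambient subgroup `V` -/
def Spr (U : Fam E) (V : AddSubgroup E) (s : ℝ) : Prop :=
  ∀ W : AddSubgroup E, W ≤ V → ls V - hh U W ≤ s * (ls V - ls W)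

/-- independent sum, both labels revealed -/
def add (U W : Fam E) : Fam E where
  Om := U.Om × W.Om
  fin := inferInstance
  m := prodPM U.m W.m
  hm := isPM_prod U.hm W.hm
  X := fun w => U.X w.1 + W.X w.2
  St := U.St × W.St
  J := fun w => (U.J w.1, W.J w.2)

/-- `(X_U | X_U + X_W, J_U, J_W)` -/
def fold (U W : Fam E) : Fam E where
  Om := U.Om × W.Om
  fin := inferInstance
  m := prodPM U.m W.m
  hm := isPM_prod U.hm W.hm
  X := fun w => U.X w.1
  St := E × U.St × W.St
  J := fun w => (U.X w.1 + W.X w.2, U.J w.1, W.J w.2)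

/-- restriction: the class modulo `V` is added to the label; lives in `V` -/
def rs (U : Fam E) (V : AddSubgroup E) : Fam E where
  Om := U.Om
  fin := inferInstance
  m := U.m
  hm := U.hm
  X := U.X
  St := (E ⧸ V) × U.St
  J := fun w => (q V (U.X w), U.J w)

/-- slice: the law conditioned on the label of `w0` (if `w0` has positive mass) -/
def sl (U : Fam E) (w0 : U.Om) : Fam E where
  Om := U.Om
  fin := inferInstance
  m := by classical exact if 0 < U.m w0 then condPM U.m U.J (U.J w0) else U.m
  hm := by
    classical
    split_ifs with h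
    · exact isPM_cond U.hm U.J (lt_of_lt_of_le h (le_law U.hm U.J w0))
    · exact U.hm
  X := U.X
  St := U.St
  J := U.J

lemma isPM_unif' (α : Type) [Fintype α] [Nonempty α] :
    IsPM (fun _ : α => (Fintype.card α : ℝ)⁻¹) := by
  refine ⟨fun _ => by positivity, ?_⟩
  have hc : (Fintype.card α : ℝ) ≠ 0 := by exact_mod_cast Fintype.card_pos.ne'
  rw [Finset.sum_const, nsmul_eq_mul, Finset.card_univ]
  exact mul_inv_cancel₀ hc

/-- uniform law on a subgroup, trivial label -/
def unif [Finite E] (V : AddSubgroup E) : Fam E where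
  Om := V
  fin := Fintype.ofFinite V
  m := fun _ => (@Fintype.card V (Fintype.ofFinite V) : ℝ)⁻¹
  hm := @isPM_unif' V (Fintype.ofFinite V) _
  X := fun v => v
  St := Unit
  J := fun _ => ()

/-- time sharing: family `F k` with probability `p k`, the index is part of the label -/
def sig {κ : Type} [Fintype κ] (p : κ → ℝ) (hp : IsPM p) (F : κ → Fam E) : Fam E where
  Om := Σ k, (F k).Om
  fin := inferInstance
  m := sigmaPM p (fun k => (F k).m)
  hm := isPM_sigma hp (fun k => (F k).hm)
  X := fun w => (F w.1).X w.2
  St := Σ k, (F k).St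
  J := fun w => ⟨w.1, (F w.1).J w.2⟩

/-- doubling of the slices: two copies with the SAME label -/
def SD (U : Fam E) : ℝ := ∑ w, U.m w * H (add (sl U w) (sl U w))

/-- iterated self-fold: `(Fj j U)` is `(X_1 | X_1 + X_2, ..., X_1 + X_(2^j), labels)` -/
def Fj : ℕ → Fam E → Fam E
  | 0, U => U
  | j + 1, U => fold (Fj j U) (Fj j U)

/-- `Fp l U` is `(X_1 | X_1 + X_2, ..., X_1 + X_(l+1), labels)`, `l + 1` copies -/
def Fp : ℕ → Fam E → Fam E
  | 0, U => U
  | l + 1, U => fold U (Fp l U)

/-- isomorphic families (labels only matter through their kernel) -/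
def Eqv (U U' : Fam E) : Prop :=
  ∃ e : U.Om ≃ U'.Om, (∀ w, U'.m (e w) = U.m w) ∧ (∀ w, U'.X (e w) = U.X w) ∧
    ∀ v w, U'.J (e v) = U'.J (e w) ↔ U.J v = U.J w

end

end F2
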