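import Pool.Agent.H9.F2.L1
import Pool.Agent.H9.F2.Bsg

/-! Slices and averages, `SD`, closure identity, Ruzsa triangle. -/

set_option autoImplicit false

namespace F2

open H2INV H9F2 Finset

noncomputable section

section raw
variable {O P : Type} [Fintype O] [Fintype P] {α β γ δ : Type*}

lemma law_prod (m : O → ℝ) (m' : P → ℝ) (g : O → α) (h : P → β) (a : α) (b : β) :
    law (prodPM m m') (fun w => (g w.1, h w.2)) (a, b) = law m g a * law m' h b := by
  classical
  unfold law prodPM
  rw [Fintype.sum_prod_type, Finset.sum_mul_sum]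
  refine Finset.sum_congr rfl fun x _ => Finset.sum_congr rfl fun y _ => ?_
  simp only [Prod.mk.injEq]
  by_cases h1 : g x = a <;> by_cases h2 : h y = b <;> simp [h1, h2]

lemma condPM_prod (m : O → ℝ) (m' : P → ℝ) (g : O → α) (h : P → β) (a : α) (b : β) :
    condPM (prodPM m m') (fun w => (g w.1, h w.2)) (a, b)
      = prodPM (condPM m g a) (condPM m' h b) := by
  classical
  funext w
  unfold condPM
  rw [law_prod]
  unfold prodPM
  simp only [Prod.mk.injEq]
  by_cases h1 : g w.1 = a <;> by_cases h2 : h w.2 = b <;> simp [h1, h2, mul_div_mul_comm]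

/-- double average formula for independent pairs -/
lemma cent_prod_avg {m : O → ℝ} {m' : P → ℝ} (hm : IsPM m) (hm' : IsPM m') (f : O × P → γ)
    (g : O → α) (h : P → β) :
    cent (prodPM m m') f (fun w => (g w.1, h w.2))
      = ∑ x, m x * ∑ y, m' y * ent (prodPM (condPM m g (g x)) (condPM m' h (h y))) f := by
  rw [cent_eq_avg (isPM_prod hm hm'), Fintype.sum_prod_type]
  refine Finset.sum_congr rfl fun x _ => ?_
  rw [Finset.mul_sum]
  refine Finset.sum_congr rfl fun y _ => ?_
  rw [condPM_prod]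
  unfold prodPM
  ring

/-- conditioning twice on the same variable -/
lemma condPM_condPM {m : O → ℝ} (hm : IsPM m) (g : O → α) {x y : O}
    (hx : 0 < m x) (hy : 0 < condPM m g (g x) y) :
    condPM (condPM m g (g x)) g (g y) = condPM m g (g x) := by
  classical
  have hxy : g y = g x := by
    by_contra hne
    unfold condPM at hy
    rw [if_neg hne] at hy
    exact lt_irrefl _ hy
  have hl : 0 < law m g (g x) := lt_of_lt_of_le hx (le_law hm g x)
  have h1 : law (condPM m g (g x)) g (g x) = 1 := by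
    rw [← (isPM_cond hm g hl).sum_one]
    unfold law
    refine Finset.sum_congr rfl fun w _ => ?_
    by_cases hw : g w = g x
    · rw [if_pos hw]
    · rw [if_neg hw]; unfold condPM; rw [if_neg hw]
  rw [hxy]
  funext w
  conv_lhs => unfold condPM
  by_cases hw : g w = g x
  · rw [if_pos hw]
    change condPM m g (g x) w / law (condPM m g (g x)) g (g x) = _
    rw [h1, div_one]
  · rw [if_neg hw]; unfold condPM; rw [if_neg hw]

/-- the conditional law of the conditionally independent square -/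
lemma condPM_cprod {m : O → ℝ} (hm : IsPM m) (c : O → γ) {x : O} (hx : 0 < m x) :
    condPM (cprod m c) (fun w => c w.1) (c x)
      = prodPM (condPM m c (c x)) (condPM m c (c x)) := by
  classical
  have hl : 0 < law m c (c x) := lt_of_lt_of_le hx (le_law hm c x)
  have h1 : law (cprod m c) (fun w => c w.1) (c x) = law m c (c x) := by
    have h2 : MP (cprod m c) Prod.fst m := mp_cprod_fst hm c
    exact congrFun (law_eq_of_mp h2 c) (c x)
  funext w
  unfold condPM prodPM
  rw [h1]
  by_cases hw : c w.1 = c x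
  · rw [if_pos hw]
    by_cases hw2 : c w.2 = c x
    · unfold cprod
      rw [if_pos (hw.trans hw2.symm)]
      simp only [hw, hw2, if_true]
      rw [fib_eq_law, hw]
      field_simp
    · rw [cprod_eq_zero m c (w := w) (fun h => hw2 (h.symm.trans hw))]
      simp [hw2]
  · simp [hw]

lemma cent_cprod_avg {m : O → ℝ} (hm : IsPM m) (c : O → γ) (F : O × O → δ) :
    cent (cprod m c) F (fun w => c w.1)
      = ∑ x, m x * ent (prodPM (condPM m c (c x)) (condPM m c (c x))) F := by
  rw [cent_eq_avg (isPM_cprod hm c)]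
  have h1 : ∀ w : O × O, cprod m c w * ent (condPM (cprod m c) (fun w => c w.1) (c w.1)) F
      = cprod m c w * ent (prodPM (condPM m c (c w.1)) (condPM m c (c w.1))) F := by
    intro w
    rcases ((isPM_cprod hm c).nonneg w).eq_or_lt with h0 | h0
    · rw [← h0]; simp
    · rw [condPM_cprod hm c (cprod_pos hm c h0).2.1]
  rw [Finset.sum_congr rfl fun w _ => h1 w]
  exact (mp_cprod_fst hm c).sum_eq
    (fun x => ent (prodPM (condPM m c (c x)) (condPM m c (c x))) F)

/-- the average of a fixed law against itself -/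
lemma cent_condPM {m : O → ℝ} (hm : IsPM m) (g : O → α) (f : O → γ) {x : O} (hx : 0 < m x) :
    cent (condPM m g (g x)) f g = ent (condPM m g (g x)) f := by
  have hc : IsPM (condPM m g (g x)) := isPM_cond hm g (lt_of_lt_of_le hx (le_law hm g x))
  rw [cent_eq_avg hc]
  have h1 : ∀ v, condPM m g (g x) v * ent (condPM (condPM m g (g x)) g (g v)) f
      = condPM m g (g x) v * ent (condPM m g (g x)) f := by
    intro v
    rcases (hc.nonneg v).eq_or_lt with h2 | h2
    · rw [← h2]; simp
    · rw [condPM_condPM hm g hx h2]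
  rw [Finset.sum_congr rfl fun v _ => h1 v, ← Finset.sum_mul, hc.sum_one, one_mul]

lemma cent_condPM_prod {m : O → ℝ} {m' : P → ℝ} (hm : IsPM m) (hm' : IsPM m') (g : O → α)
    (h : P → β) (f : O × P → γ) {x : O} (hx : 0 < m x) :
    cent (prodPM (condPM m g (g x)) m') f (fun w => (g w.1, h w.2))
      = ∑ y, m' y * ent (prodPM (condPM m g (g x)) (condPM m' h (h y))) f := by
  have hc : IsPM (condPM m g (g x)) := isPM_cond hm g (lt_of_lt_of_le hx (le_law hm g x))
  rw [cent_prod_avg hc hm']
  have h1 : ∀ v, condPM m g (g x) v * ∑ y, m' y *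
      ent (prodPM (condPM (condPM m g (g x)) g (g v)) (condPM m' h (h y))) f
      = condPM m g (g x) v * ∑ y, m' y *
      ent (prodPM (condPM m g (g x)) (condPM m' h (h y))) f := by
    intro v
    rcases (hc.nonneg v).eq_or_lt with h2 | h2
    · rw [← h2]; simp
    · rw [condPM_condPM hm g hx h2]
  rw [Finset.sum_congr rfl fun v _ => h1 v, ← Finset.sum_mul, hc.sum_one, one_mul]

lemma cent_condPM_prod_self {m : O → ℝ} (hm : IsPM m) (g : O → α)
    (f : O × O → γ) {x : O} (hx : 0 < m x) :
    cent (prodPM (condPM m g (g x)) (condPM m g (g x))) f (fun w => (g w.1, g w.2))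
      = ent (prodPM (condPM m g (g x)) (condPM m g (g x))) f := by
  have hc : IsPM (condPM m g (g x)) := isPM_cond hm g (lt_of_lt_of_le hx (le_law hm g x))
  rw [cent_condPM_prod hm hc g g f hx]
  have h1 : ∀ v, condPM m g (g x) v *
      ent (prodPM (condPM m g (g x)) (condPM (condPM m g (g x)) g (g v))) f
      = condPM m g (g x) v * ent (prodPM (condPM m g (g x)) (condPM m g (g x))) f := by
    intro v
    rcases (hc.nonneg v).eq_or_lt with h2 | h2
    · rw [← h2]; simp
    · rw [condPM_condPM hm g hx h2]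
  rw [Finset.sum_congr rfl fun v _ => h1 v, ← Finset.sum_mul, hc.sum_one, one_mul]

/-- raw averages over slices -/
lemma avg_raw {m : O → ℝ} (hm : IsPM m) (g : O → α) (f : O → γ) (c : O → ℝ)
    (hc : ∀ x, 0 < m x → c x = cent (condPM m g (g x)) f g) :
    ∑ x, m x * c x = cent m f g := by
  rw [cent_eq_avg hm]
  refine Finset.sum_congr rfl fun x _ => ?_
  rcases (hm.nonneg x).eq_or_lt with h0 | h0
  · rw [← h0]; simp
  · rw [hc x h0, cent_condPM hm g f h0]

lemma avg_raw_prod {m : O → ℝ} {m' : P → ℝ} (hm : IsPM m) (hm' : IsPM m') (g : O → α)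
    (h : P → β) (f : O × P → γ) (c : O → ℝ)
    (hc : ∀ x, 0 < m x → c x = cent (prodPM (condPM m g (g x)) m') f (fun w => (g w.1, h w.2))) :
    ∑ x, m x * c x = cent (prodPM m m') f (fun w => (g w.1, h w.2)) := by
  rw [cent_prod_avg hm hm']
  refine Finset.sum_congr rfl fun x _ => ?_
  rcases (hm.nonneg x).eq_or_lt with h0 | h0
  · rw [← h0]; simp
  · rw [hc x h0, cent_condPM_prod hm hm' g h f h0]

lemma avg_raw_self {m : O → ℝ} (hm : IsPM m) (g : O → α) (f : O × O → γ) (c : O → ℝ)
    (hc : ∀ x, 0 < m x → c x =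
      cent (prodPM (condPM m g (g x)) (condPM m g (g x))) f (fun w => (g w.1, g w.2))) :
    ∑ x, m x * c x = cent (cprod m g) f (fun w => g w.1) := by
  rw [cent_cprod_avg hm]
  refine Finset.sum_congr rfl fun x _ => ?_
  rcases (hm.nonneg x).eq_or_lt with h0 | h0
  · rw [← h0]; simp
  · rw [hc x h0, cent_condPM_prod_self hm g f h0]

end raw

variable {E : Type} [AddCommGroup E]

omit [AddCommGroup E] in
lemma sl_m (U : Fam E) {w0 : U.Om} (h : 0 < U.m w0) : (sl U w0).m = condPM U.m U.J (U.J w0) := by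
  unfold sl
  simp only [if_pos h]

omit [AddCommGroup E] in
lemma avg_const (U : Fam E) (c : ℝ) : ∑ w, U.m w * c = c := by
  rw [← Finset.sum_mul, U.hm.sum_one, one_mul]

/-- L6 -/
lemma avg_hq_sl (U : Fam E) (G : AddSubgroup E) : ∑ w, U.m w * hq (sl U w) G = hq U G :=
  avg_raw U.hm U.J (fun v => q G (U.X v)) (fun w => hq (sl U w) G) fun _ hw =>
    congrArg (fun μ : U.Om → ℝ => cent μ (fun v => q G (U.X v)) U.J) (sl_m U hw)

lemma avg_hh_sl (U : Fam E) (G : AddSubgroup E) : ∑ w, U.m w * hh (sl U w) G = hh U G := by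
  have h1 := avg_hq_sl U G
  have h2 := avg_const U (ls G)
  rw [hh_eq, ← h1]
  conv_rhs => rw [← h2]
  rw [← Finset.sum_add_distrib]
  exact Finset.sum_congr rfl fun w _ => by rw [hh_eq]; ring

omit [AddCommGroup E] in
lemma avg_H_sl (U : Fam E) : ∑ w, U.m w * H (sl U w) = H U :=
  avg_raw U.hm U.J U.X (fun w => H (sl U w)) fun _ hw =>
    congrArg (fun μ : U.Om → ℝ => cent μ U.X U.J) (sl_m U hw)

lemma avg_hq_add_sl (U B : Fam E) (G : AddSubgroup E) :
    ∑ w, U.m w * hq (add (sl U w) B) G = hq (add U B) G :=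
  avg_raw_prod U.hm B.hm U.J B.J (fun v => q G (U.X v.1 + B.X v.2))
    (fun w => hq (add (sl U w) B) G) fun _ hw =>
    congrArg (fun μ : U.Om → ℝ => cent (prodPM μ B.m) (fun v => q G (U.X v.1 + B.X v.2))
      (fun v => (U.J v.1, B.J v.2))) (sl_m U hw)

lemma avg_hh_add_sl (U B : Fam E) (G : AddSubgroup E) :
    ∑ w, U.m w * hh (add (sl U w) B) G = hh (add U B) G := by
  have h1 := avg_hq_add_sl U B G
  have h2 := avg_const U (ls G)
  rw [hh_eq, ← h1]
  conv_rhs => rw [← h2]
  rw [← Finset.sum_add_distrib]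
  exact Finset.sum_congr rfl fun w _ => by rw [hh_eq]; ring

lemma avg_hh_add_sl' (B U : Fam E) (G : AddSubgroup E) :
    ∑ w, U.m w * hh (add B (sl U w)) G = hh (add B U) G := by
  rw [hh_add_comm, ← avg_hh_add_sl]
  exact Finset.sum_congr rfl fun w _ => by rw [hh_add_comm]

lemma avg_H_add_sl (U B : Fam E) : ∑ w, U.m w * H (add (sl U w) B) = H (add U B) := by
  rw [← hh_bot (add U B), ← avg_hh_add_sl]
  exact Finset.sum_congr rfl fun w _ => by rw [hh_bot]

lemma avg_H_add_sl' (B U : Fam E) : ∑ w, U.m w * H (add B (sl U w)) = H (add B U) := by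
  rw [H_add_comm, ← avg_H_add_sl]
  exact Finset.sum_congr rfl fun w _ => by rw [H_add_comm]

omit [AddCommGroup E] in
lemma Fam.eq_of_m (A B : Fam E) (hO : A.Om = B.Om) (hf : HEq A.fin B.fin) (hm : HEq A.m B.m)
    (hX : HEq A.X B.X) (hS : A.St = B.St) (hJ : HEq A.J B.J) : A = B := by
  cases A; cases B
  simp only at hO hS
  subst hO; subst hS
  simp only [heq_eq_eq] at hf hm hX hJ
  subst hf; subst hm; subst hX; subst hJ
  rfl

/-- L7: the slice of a sum is the sum of the slices -/
lemma sl_add (U W : Fam E) {w : U.Om × W.Om} (h1 : 0 < U.m w.1) (h2 : 0 < W.m w.2) :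
    sl (add U W) w = add (sl U w.1) (sl W w.2) := by
  have hp : 0 < (add U W).m w := mul_pos h1 h2
  refine Fam.eq_of_m _ _ rfl HEq.rfl (heq_of_eq ?_) HEq.rfl rfl HEq.rfl
  rw [sl_m (add U W) hp]
  show condPM (prodPM U.m W.m) (fun v => (U.J v.1, W.J v.2)) (U.J w.1, W.J w.2)
      = prodPM (sl U w.1).m (sl W w.2).m
  rw [condPM_prod, sl_m U h1, sl_m W h2]
  rfl

/-- L8 -/
lemma SD_eq' (U : Fam E) :
    SD U = cent (cprod U.m U.J) (fun w => U.X w.1 + U.X w.2) (fun w => U.J w.1) :=
  avg_raw_self U.hm U.J (fun v => U.X v.1 + U.X v.2) (fun w => H (add (sl U w) (sl U w)))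
    fun _ hw => congrArg (fun μ : U.Om → ℝ => cent (prodPM μ μ) (fun v => U.X v.1 + U.X v.2)
      (fun v => (U.J v.1, U.J v.2))) (sl_m U hw)

/-- same-label doubling is at least the entropy -/
lemma SD_ge (U : Fam E) : H U ≤ SD U := by
  rw [← avg_H_sl]
  exact Finset.sum_le_sum fun w _ => mul_le_mul_of_nonneg_left (H_add_left _ _) (U.hm.nonneg w)

lemma H_add_left_comm (A B C : Fam E) : H (add B (add A C)) = H (add A (add B C)) := by
  -- both are entropies on the triple product
  have hmp : MP (prodPM B.m (prodPM A.m C.m)) (fun w => (w.2.1, (w.1, w.2.2)))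
      (prodPM A.m (prodPM B.m C.m)) :=
    mp_of_equiv ⟨fun w => (w.2.1, (w.1, w.2.2)), fun w => (w.2.1, (w.1, w.2.2)),
      fun _ => rfl, fun _ => rfl⟩ fun w => by
      simp only [prodPM, Equiv.coe_fn_mk]; ring
  have h1 := ent_comp_of_mp hmp (add A (add B C)).J
  have h2 := ent_comp_of_mp hmp (pr (add A (add B C)).X (add A (add B C)).J)
  have h3 : H (add A (add B C)) = ent (prodPM A.m (prodPM B.m C.m))
      (pr (add A (add B C)).X (add A (add B C)).J) - ent (prodPM A.m (prodPM B.m C.m))
      (add A (add B C)).J := rfl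
  rw [h3, ← h1, ← h2]
  have h4 : H (add B (add A C)) = ent (prodPM B.m (prodPM A.m C.m))
      (pr (add B (add A C)).X (add B (add A C)).J) - ent (prodPM B.m (prodPM A.m C.m))
      (add B (add A C)).J := rfl
  rw [h4]
  congr 1
  · refine ent_congr _ fun w w' => ?_
    simp only [pr, add, Prod.mk.injEq]
    rw [add_left_comm (B.X w.1), add_left_comm (B.X w'.1)]
    tauto
  · refine ent_congr _ fun w w' => ?_
    simp only [add, Prod.mk.injEq]
    tauto

/-- Ruzsa triangle inequality -/
lemma H_tri (A B C : Fam E) : H (add A C) + H B ≤ H (add A B) + H (add B C) := by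
  have h1 := H_kv A B C
  have h2 : H (add A C) ≤ H (add A (add B C)) := by
    -- H (A + C) <= H (B + (A + C))
    have h3 := H_add_right B (add A C)
    rw [H_add_left_comm] at h3
    exact h3
  linarith

/-- `SD U - H U <= 2 (H(U+U') - H U)` -/
lemma SD_le (U : Fam E) : SD U + H U ≤ 2 * H (add U U) := by
  have h1 : SD U + H U ≤ ∑ w, U.m w * (H (add (sl U w) U) + H (add U (sl U w))) := by
    have h0 : SD U + H U = ∑ w, U.m w * (H (add (sl U w) (sl U w)) + H U) := by
      simp only [mul_add, Finset.sum_add_distrib]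
      rw [avg_const]; rfl
    rw [h0]
    exact Finset.sum_le_sum fun w _ =>
      mul_le_mul_of_nonneg_left (H_tri (sl U w) U (sl U w)) (U.hm.nonneg w)
  have h2 := avg_H_add_sl U U
  have h3 := avg_H_add_sl' U U
  simp only [mul_add, Finset.sum_add_distrib] at h1
  linarith

/-- two-piece flag rule -/
lemma flag2 (U W : Fam E) (K : AddSubgroup E) :
    hq (add U W) K + H (add (rs U K) (rs W K)) ≤ H (add U W) := by
  have h1 := cent_chain (add U W).m (add U W).X (fun w => q K ((add U W).X w)) (add U W).J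
  have h2 : cent (add U W).m (pr (add U W).X (fun w => q K ((add U W).X w))) (add U W).J
      = H (add U W) :=
    cent_congr_left fun w w' _ => by
      rw [pr_eq]
      exact ⟨fun a => a.1, fun a => ⟨a, by rw [a]⟩⟩
  have h4 : H (add (rs U K) (rs W K))
      ≤ cent (add U W).m (add U W).X (pr (fun w => q K ((add U W).X w)) (add U W).J) :=
    cent_anti (add U W).hm _ fun w w' hw => by
      have hw' : (q K (U.X w.1) = q K (U.X w'.1) ∧ U.J w.1 = U.J w'.1) ∧
        (q K (W.X w.2) = q K (W.X w'.2) ∧ W.J w.2 = W.J w'.2) := by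
        simpa [add, rs] using hw
      refine Prod.ext_iff.2 ⟨q_add K _ _ _ _ hw'.1.1 hw'.2.1, ?_⟩
      show (U.J w.1, W.J w.2) = (U.J w'.1, W.J w'.2)
      rw [hw'.1.2, hw'.2.2]
  have h5 : hq (add U W) K = cent (add U W).m (fun w => q K ((add U W).X w)) (add U W).J := rfl
  linarith

/-- two-piece flag rule, smeared form -/
lemma flag2_hh (U W : Fam E) {G K : AddSubgroup E} (hG : G ≤ K) :
    hq (add U W) K + hh (add (rs U K) (rs W K)) G ≤ hh (add U W) G := by
  have h1 := cent_chain (add U W).m (fun w => q G ((add U W).X w))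
    (fun w => q K ((add U W).X w)) (add U W).J
  have h2 : cent (add U W).m (pr (fun w => q G ((add U W).X w))
      (fun w => q K ((add U W).X w))) (add U W).J = hq (add U W) G :=
    cent_congr_left fun w w' _ => by
      rw [pr_eq]
      exact ⟨fun a => a.1, fun a => ⟨a, q_mono hG a⟩⟩
  have h4 : hq (add (rs U K) (rs W K)) G
      ≤ cent (add U W).m (fun w => q G ((add U W).X w))
        (pr (fun w => q K ((add U W).X w)) (add U W).J) :=
    cent_anti (add U W).hm _ fun w w' hw => by
      have hw' : (q K (U.X w.1) = q K (U.X w'.1) ∧ U.J w.1 = U.J w'.1) ∧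
        (q K (W.X w.2) = q K (W.X w'.2) ∧ W.J w.2 = W.J w'.2) := by
        simpa [add, rs] using hw
      refine Prod.ext_iff.2 ⟨q_add K _ _ _ _ hw'.1.1 hw'.2.1, ?_⟩
      show (U.J w.1, W.J w.2) = (U.J w'.1, W.J w'.2)
      rw [hw'.1.2, hw'.2.2]
  have h5 : hq (add U W) K = cent (add U W).m (fun w => q K ((add U W).X w)) (add U W).J := rfl
  rw [hh_eq, hh_eq]
  linarith

/-- three-summand flag rule -/
lemma flag3 (A B C : Fam E) (K : AddSubgroup E) :
    hq (add A (add B C)) K + H (add (rs A K) (add (rs B K) (rs C K)))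
      ≤ H (add A (add B C)) := by
  have h1 := cent_chain (add A (add B C)).m (add A (add B C)).X
    (fun w => q K ((add A (add B C)).X w)) (add A (add B C)).J
  have h2 : cent (add A (add B C)).m (pr (add A (add B C)).X
      (fun w => q K ((add A (add B C)).X w))) (add A (add B C)).J = H (add A (add B C)) :=
    cent_congr_left fun w w' _ => by
      rw [pr_eq]
      exact ⟨fun a => a.1, fun a => ⟨a, by rw [a]⟩⟩
  have h4 : H (add (rs A K) (add (rs B K) (rs C K)))
      ≤ cent (add A (add B C)).m (add A (add B C)).X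
        (pr (fun w => q K ((add A (add B C)).X w)) (add A (add B C)).J) :=
    cent_anti (add A (add B C)).hm _ fun w w' hw => by
      have hw' : (q K (A.X w.1) = q K (A.X w'.1) ∧ A.J w.1 = A.J w'.1) ∧
        (q K (B.X w.2.1) = q K (B.X w'.2.1) ∧ B.J w.2.1 = B.J w'.2.1) ∧
        (q K (C.X w.2.2) = q K (C.X w'.2.2) ∧ C.J w.2.2 = C.J w'.2.2) := by
        simpa [add, rs] using hw
      refine Prod.ext_iff.2 ⟨q_add K _ _ _ _ hw'.1.1 (q_add K _ _ _ _ hw'.2.1.1 hw'.2.2.1), ?_⟩
      show (A.J w.1, B.J w.2.1, C.J w.2.2) = (A.J w'.1, B.J w'.2.1, C.J w'.2.2)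
      rw [hw'.1.2, hw'.2.1.2, hw'.2.2.2]
  have h5 : hq (add A (add B C)) K = cent (add A (add B C)).m
    (fun w => q K ((add A (add B C)).X w)) (add A (add B C)).J := rfl
  linarith

/-- closure identity -/
lemma hh_fold (U W : Fam E) (G : AddSubgroup E) :
    hh (fold U W) G = hq U G + hq W G + H (add (rs U G) (rs W G)) - H (add U W) + ls G := by
  let μ := prodPM U.m W.m
  let S : U.Om × W.Om → E := fun w => U.X w.1 + W.X w.2
  let Js : U.Om × W.Om → U.St × W.St := fun w => (U.J w.1, W.J w.2)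
  let X1 : U.Om × W.Om → E ⧸ G := fun w => q G (U.X w.1)
  let P : U.Om × W.Om → (E ⧸ G) × (E ⧸ G) := fun w => (q G (U.X w.1), q G (W.X w.2))
  have h1 := cent_chain μ X1 S Js
  have h2 := cent_chain μ S P Js
  have h3 : cent μ (pr X1 S) Js = cent μ (pr S P) Js := cent_congr_left fun w w' _ => by
    simp only [pr_eq, X1, S, P, Prod.mk.injEq]
    constructor
    · rintro ⟨a, b⟩
      refine ⟨b, a, ?_⟩
      rw [q_eq] at a ⊢
      have : W.X w.2 - W.X w'.2 = (U.X w.1 + W.X w.2) - (U.X w'.1 + W.X w'.2)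
        - (U.X w.1 - U.X w'.1) := by abel
      rw [this, b]
      exact G.sub_mem (by simp) a
    · rintro ⟨a, b, _⟩
      exact ⟨b, a⟩
  have h4 : cent μ P Js = hq U G + hq W G := by
    unfold hq
    rw [← cent_prod_pair U.hm W.hm]
  have h5 : cent μ S (pr P Js) = H (add (rs U G) (rs W G)) := by
    unfold H
    refine cent_congr μ (fun w w' => ?_) (fun w w' _ => Iff.rfl)
    simp only [pr, P, Js, add, rs, Prod.mk.injEq]
    tauto
  have h6 : cent μ X1 (pr S Js) = hq (fold U W) G := rfl
  have h7 : cent μ S Js = H (add U W) := rfl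
  rw [hh_eq, ← h6]
  linarith

end

end F2
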