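import Pool.Agent.H9.F2.Fam

/-! Basic facts on `H`, `hh`, `In`, `Spr`, `add`, `fold`, `rs`, threshold subgroups. -/

set_option autoImplicit false

namespace F2

open H2INV Finset

noncomputable section

variable {E : Type} [AddCommGroup E]

lemma q_eq (V : AddSubgroup E) (x y : E) : q V x = q V y ↔ x - y ∈ V := by
  unfold q
  rw [QuotientAddGroup.eq, ← V.neg_mem_iff]
  have : -(-x + y) = x - y := by abel
  rw [this]

lemma q_add (V : AddSubgroup E) (x y x' y' : E) (h : q V x = q V x') (h' : q V y = q V y') :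
    q V (x + y) = q V (x' + y') := by
  rw [q_eq] at h h' ⊢
  have : x + y - (x' + y') = (x - x') + (y - y') := by abel
  rw [this]
  exact V.add_mem h h'

lemma q_mono {V W : AddSubgroup E} (hVW : V ≤ W) {x y : E} (h : q V x = q V y) :
    q W x = q W y := by
  rw [q_eq] at h ⊢; exact hVW h

lemma q_bot (x y : E) : q (⊥ : AddSubgroup E) x = q ⊥ y ↔ x = y := by
  rw [q_eq, AddSubgroup.mem_bot, sub_eq_zero]

lemma ls_bot : ls (⊥ : AddSubgroup E) = 0 := by
  unfold ls
  have : Nat.card (⊥ : AddSubgroup E) = 1 := AddSubgroup.card_bot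
  rw [this]; simp

section fin
variable [Finite E]

lemma card_posR (V : AddSubgroup E) : (0 : ℝ) < Nat.card V := by exact_mod_cast Nat.card_pos

omit [Finite E] in
lemma ls_nonneg (V : AddSubgroup E) : 0 ≤ ls V := Real.log_natCast_nonneg _

lemma ls_mono {V W : AddSubgroup E} (h : V ≤ W) : ls V ≤ ls W := by
  unfold ls
  refine Real.log_le_log (card_posR V) ?_
  exact_mod_cast Nat.card_le_card_of_injective _ (AddSubgroup.inclusion_injective h)

omit [Finite E] in
lemma card_mul_relIndex' {G V : AddSubgroup E} (h : G ≤ V) :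
    Nat.card G * G.relIndex V = Nat.card V := by
  have h1 := AddSubgroup.card_mul_index (G.addSubgroupOf V)
  have h2 : Nat.card (G.addSubgroupOf V) = Nat.card G :=
    Nat.card_congr (AddSubgroup.addSubgroupOfEquivOfLe h).toEquiv
  rw [h2] at h1
  exact h1

/-- index inequality -/
lemma ls_inf (V W G : AddSubgroup E) (hV : W ≤ V) (hG : G ≤ V) :
    ls W - ls (W ⊓ G) ≤ ls V - ls G := by
  have hfin : Finite V := inferInstance
  -- |W| |G| = |W ⊓ G| |W ⊔ G|
  have key : (Nat.card W : ℝ) * Nat.card G ≤ Nat.card (W ⊓ G : AddSubgroup E) * Nat.card V := by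
    have h1 : (W ⊓ G).relIndex W ≤ G.relIndex V := by
      rw [AddSubgroup.inf_relIndex_left]
      exact AddSubgroup.relIndex_le_of_le_right hV (by
        rw [AddSubgroup.relIndex]
        exact (AddSubgroup.index_ne_zero_of_finite))
    have h2 : Nat.card (W ⊓ G : AddSubgroup E) * (W ⊓ G).relIndex W = Nat.card W :=
      card_mul_relIndex' inf_le_left
    have h3 : Nat.card G * G.relIndex V = Nat.card V :=
      card_mul_relIndex' hG
    rw [← h2, ← h3]
    push_cast
    have h4 : ((W ⊓ G).relIndex W : ℝ) ≤ G.relIndex V := by exact_mod_cast h1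
    have h5 := mul_le_mul_of_nonneg_left h4
      (mul_nonneg (card_posR (W ⊓ G)).le (card_posR G).le)
    linarith
  have k1 := Real.log_le_log (mul_pos (card_posR W) (card_posR G)) key
  rw [Real.log_mul (card_posR W).ne' (card_posR G).ne',
    Real.log_mul (card_posR _).ne' (card_posR V).ne'] at k1
  unfold ls
  linarith

end fin

/-! ### conditional entropies on products -/

section prod
variable {O P : Type} [Fintype O] [Fintype P] {α β γ δ : Type*}

lemma cent_prod_fst {m : O → ℝ} {m' : P → ℝ} (hm : IsPM m) (hm' : IsPM m') (f : O → α)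
    (g : O → β) (h : P → γ) :
    cent (prodPM m m') (fun w => f w.1) (fun w => (g w.1, h w.2)) = cent m f g := by
  have h1 := ent_prod hm hm' (pr f g) h
  have h2 := ent_prod hm hm' g h
  have h3 : ent (prodPM m m') (pr (fun w => f w.1) (fun w => (g w.1, h w.2)))
      = ent (prodPM m m') (fun w => (pr f g w.1, h w.2)) := ent_congr _ fun w w' => by
    simp only [pr_eq, Prod.mk.injEq]; tauto
  unfold cent
  rw [h3, h1, h2]; ring

lemma cent_prod_snd {m : O → ℝ} {m' : P → ℝ} (hm : IsPM m) (hm' : IsPM m') (f : P → α)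
    (g : O → β) (h : P → γ) :
    cent (prodPM m m') (fun w => f w.2) (fun w => (g w.1, h w.2)) = cent m' f h := by
  have h1 := ent_prod hm hm' g (pr f h)
  have h2 := ent_prod hm hm' g h
  have h3 : ent (prodPM m m') (pr (fun w => f w.2) (fun w => (g w.1, h w.2)))
      = ent (prodPM m m') (fun w => (g w.1, pr f h w.2)) := ent_congr _ fun w w' => by
    simp only [pr_eq, Prod.mk.injEq]; tauto
  unfold cent
  rw [h3, h1, h2]; ring

lemma cent_prod_pair {m : O → ℝ} {m' : P → ℝ} (hm : IsPM m) (hm' : IsPM m') (f : O → α)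
    (f' : P → δ) (g : O → β) (h : P → γ) :
    cent (prodPM m m') (fun w => (f w.1, f' w.2)) (fun w => (g w.1, h w.2))
      = cent m f g + cent m' f' h := by
  have h1 := ent_prod hm hm' (pr f g) (pr f' h)
  have h2 := ent_prod hm hm' g h
  have h3 : ent (prodPM m m') (pr (fun w => (f w.1, f' w.2)) (fun w => (g w.1, h w.2)))
      = ent (prodPM m m') (fun w => (pr f g w.1, pr f' h w.2)) := ent_congr _ fun w w' => by
    simp only [pr_eq, Prod.mk.injEq]; tauto
  unfold cent
  rw [h3, h1, h2]; ring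

/-- if `f` and `g` are functions of each other given `h`, the conditional entropies agree -/
lemma cent_congr_left {m : O → ℝ} {f : O → α} {g : O → β} {h : O → γ}
    (hh : ∀ w w', h w = h w' → (f w = f w' ↔ g w = g w')) : cent m f h = cent m g h :=
  cent_congr m (fun _ _ => Iff.rfl) hh

lemma cent_eq_zero {m : O → ℝ} {f : O → α} {h : O → γ}
    (hh : ∀ w w', h w = h w' → f w = f w') : cent m f h = 0 := by
  unfold cent
  rw [ent_congr m (f := pr f h) (g := h) fun w w' => by
    rw [pr_eq]; exact ⟨fun a => a.2, fun a => ⟨hh _ _ a, a⟩⟩]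
  ring

end prod

/-! ### H and hh -/

/-- `H(X mod V | J)` -/
def hq (U : Fam E) (V : AddSubgroup E) : ℝ := cent U.m (fun w => q V (U.X w)) U.J

lemma hh_eq (U : Fam E) (V : AddSubgroup E) : hh U V = hq U V + ls V := rfl

lemma hq_nonneg (U : Fam E) (V : AddSubgroup E) : 0 ≤ hq U V := cent_nonneg U.hm _ _

omit [AddCommGroup E] in
lemma H_nonneg (U : Fam E) : 0 ≤ H U := cent_nonneg U.hm _ _

lemma hh_bot (U : Fam E) : hh U ⊥ = H U := by
  rw [hh_eq, ls_bot, add_zero]
  exact cent_congr_left fun w w' _ => q_bot _ _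

lemma hq_eq_zero {U : Fam E} {V : AddSubgroup E} (h : In U V) : hq U V = 0 :=
  cent_eq_zero fun w w' hJ => (q_eq _ _ _).2 (h w w' hJ)

/-- L2c -/
lemma hh_of_In {U : Fam E} {V : AddSubgroup E} (h : In U V) : hh U V = ls V := by
  rw [hh_eq, hq_eq_zero h, zero_add]

lemma In_mono {U : Fam E} {V W : AddSubgroup E} (h : In U V) (hVW : V ≤ W) : In U W :=
  fun v w hJ => hVW (h v w hJ)

lemma In_top (U : Fam E) : In U ⊤ := fun _ _ _ => AddSubgroup.mem_top _

lemma In_add {U W : Fam E} {V : AddSubgroup E} (h : In U V) (h' : In W V) : In (add U W) V := by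
  intro v w hJ
  have h1 : U.J v.1 = U.J w.1 ∧ W.J v.2 = W.J w.2 := by simpa [add] using hJ
  have : (add U W).X v - (add U W).X w = (U.X v.1 - U.X w.1) + (W.X v.2 - W.X w.2) := by
    show U.X v.1 + W.X v.2 - (U.X w.1 + W.X w.2) = _
    abel
  rw [this]
  exact V.add_mem (h _ _ h1.1) (h' _ _ h1.2)

lemma In_fold {U W : Fam E} {V : AddSubgroup E} (h : In U V) : In (fold U W) V := by
  intro v w hJ
  have h1 : (U.X v.1 + W.X v.2 = U.X w.1 + W.X w.2) ∧ U.J v.1 = U.J w.1 ∧ W.J v.2 = W.J w.2 := by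
    simpa [fold] using hJ
  exact h _ _ h1.2.1

lemma In_rs (U : Fam E) (V : AddSubgroup E) : In (rs U V) V := by
  intro v w hJ
  have h1 : q V (U.X v) = q V (U.X w) ∧ U.J v = U.J w := by simpa [rs] using hJ
  exact (q_eq _ _ _).1 h1.1

lemma In_rs' {U : Fam E} {V : AddSubgroup E} (h : In U V) (W : AddSubgroup E) : In (rs U W) V := by
  intro v w hJ
  have h1 : q W (U.X v) = q W (U.X w) ∧ U.J v = U.J w := by simpa [rs] using hJ
  exact h _ _ h1.2

lemma In_sl {U : Fam E} {V : AddSubgroup E} (h : In U V) (w0 : U.Om) : In (sl U w0) V :=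
  fun v w hJ => h v w hJ

lemma In_Fj {U : Fam E} {V : AddSubgroup E} (h : In U V) (j : ℕ) : In (Fj j U) V := by
  induction j with
  | zero => exact h
  | succ j ih => exact In_fold ih

lemma In_Fp {U : Fam E} {V : AddSubgroup E} (h : In U V) (l : ℕ) : In (Fp l U) V := by
  cases l with
  | zero => exact h
  | succ l => exact In_fold h

/-- L6': restriction -/
lemma hh_rs (U : Fam E) {W G : AddSubgroup E} (h : W ≤ G) :
    hh (rs U G) W = hh U W - hh U G + ls G := by
  have h1 : cent U.m (pr (fun w => q W (U.X w)) (fun w => q G (U.X w))) U.J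
      = cent U.m (fun w => q W (U.X w)) U.J :=
    cent_congr_left fun w w' _ => by
      rw [pr_eq]
      exact ⟨fun a => a.1, fun a => ⟨a, q_mono h a⟩⟩
  have h2 := cent_chain U.m (fun w => q W (U.X w)) (fun w => q G (U.X w)) U.J
  have h3 : hq (rs U G) W
      = cent U.m (fun w => q W (U.X w)) (pr (fun w => q G (U.X w)) U.J) := rfl
  rw [hh_eq, hh_eq, hh_eq, h3]
  unfold hq
  linarith

lemma H_rs (U : Fam E) (G : AddSubgroup E) : H (rs U G) = H U - hh U G + ls G := by
  rw [← hh_bot, ← hh_bot, hh_rs U bot_le]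

/-- L1 -/
lemma H_fold (U W : Fam E) : H (fold U W) = H U + H W - H (add U W) := by
  let S : U.Om × W.Om → E := fun w => U.X w.1 + W.X w.2
  let Js : U.Om × W.Om → U.St × W.St := fun w => (U.J w.1, W.J w.2)
  let X1 : U.Om × W.Om → E := fun w => U.X w.1
  have h1 := cent_chain (prodPM U.m W.m) X1 S Js
  have h2 : cent (prodPM U.m W.m) (pr X1 S) Js = H U + H W := by
    unfold H
    rw [← cent_prod_pair U.hm W.hm U.X W.X U.J W.J]
    refine cent_congr_left fun w w' _ => ?_
    rw [pr_eq]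
    simp only [X1, S, Prod.mk.injEq]
    constructor
    · rintro ⟨a, b⟩
      rw [a] at b
      exact ⟨a, add_left_cancel b⟩
    · rintro ⟨a, b⟩
      rw [a, b]; exact ⟨rfl, rfl⟩
  have h3 : H (fold U W) = cent (prodPM U.m W.m) X1 (pr S Js) := rfl
  have h4 : H (add U W) = cent (prodPM U.m W.m) S Js := rfl
  rw [h3, h4]
  linarith

section mono
variable [Finite E]

/-- L2a -/
lemma hh_mono (U : Fam E) {V W : AddSubgroup E} (h : V ≤ W) : hh U V ≤ hh U W := by
  classical
  have : Fintype (W ⧸ V.addSubgroupOf W) := Fintype.ofFinite _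
  let sec : E ⧸ W → E := Function.surjInv (QuotientAddGroup.mk_surjective (s := W))
  have hsec : ∀ c, q W (sec c) = c := fun c => Function.surjInv_eq _ c
  let f : U.Om → W ⧸ V.addSubgroupOf W := fun w =>
    QuotientAddGroup.mk ⟨U.X w - sec (q W (U.X w)), by
      rw [← q_eq, hsec]⟩
  have h1 := cent_chain U.m (fun w => q V (U.X w)) (fun w => q W (U.X w)) U.J
  have h2 : cent U.m (pr (fun w => q V (U.X w)) (fun w => q W (U.X w))) U.J
      = cent U.m (fun w => q V (U.X w)) U.J :=
    cent_congr_left fun w w' _ => by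
      rw [pr_eq]
      exact ⟨fun a => a.1, fun a => ⟨a, q_mono h a⟩⟩
  have h3 : cent U.m (fun w => q V (U.X w)) (pr (fun w => q W (U.X w)) U.J)
      = cent U.m f (pr (fun w => q W (U.X w)) U.J) :=
    cent_congr_left fun w w' hw => by
      rw [pr_eq] at hw
      have hq : q W (U.X w) = q W (U.X w') := hw.1
      simp only [f]
      rw [q_eq, QuotientAddGroup.eq, ← V.neg_mem_iff, AddSubgroup.mem_addSubgroupOf]
      simp only [AddSubgroup.coe_add, NegMemClass.coe_neg]
      rw [hq]
      have : -(U.X w - U.X w') = -(U.X w - sec (q W (U.X w'))) + (U.X w' - sec (q W (U.X w'))) := by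
        abel
      rw [this]
  have h4 := cent_le_log_card U.hm f (pr (fun w => q W (U.X w)) U.J)
  have h5 : Real.log (Fintype.card (W ⧸ V.addSubgroupOf W)) = ls W - ls V := by
    have h6 := card_mul_relIndex' h
    have h7 : (Fintype.card (W ⧸ V.addSubgroupOf W) : ℝ) = V.relIndex W := by
      rw [← Nat.card_eq_fintype_card]; rfl
    have h8 : (0 : ℝ) < V.relIndex W := by
      rw [← h7]; exact_mod_cast Fintype.card_pos
    unfold ls
    rw [h7, ← h6]
    push_cast
    rw [Real.log_mul (card_posR V).ne' h8.ne']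
    ring
  rw [hh_eq, hh_eq]
  unfold hq
  linarith

lemma hh_le {U : Fam E} {V W : AddSubgroup E} (h : In U V) (hW : W ≤ V) : hh U W ≤ ls V := by
  rw [← hh_of_In h]; exact hh_mono U hW

lemma H_le {U : Fam E} {V : AddSubgroup E} (h : In U V) : H U ≤ ls V := by
  rw [← hh_bot]; exact hh_le h bot_le

lemma H_le_hh (U : Fam E) (W : AddSubgroup E) : H U ≤ hh U W := by
  rw [← hh_bot]; exact hh_mono U bot_le

end mono

/-- L3 -/
lemma hh_add_left (U W : Fam E) (G : AddSubgroup E) : hh U G ≤ hh (add U W) G := by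
  rw [hh_eq, hh_eq]
  have h1 := cent_prod_fst U.hm W.hm (fun w => q G (U.X w)) U.J (fun w => (W.X w, W.J w))
  have h2 : cent (prodPM U.m W.m) (fun w => q G (U.X w.1)) (fun w => (U.J w.1, (W.X w.2, W.J w.2)))
      = cent (prodPM U.m W.m) (fun w => q G (U.X w.1 + W.X w.2))
        (fun w => (U.J w.1, (W.X w.2, W.J w.2))) :=
    cent_congr_left fun w w' hw => by
      simp only [Prod.mk.injEq] at hw
      rw [q_eq, q_eq, hw.2.1]
      simp
  have h3 : cent (prodPM U.m W.m) (fun w => q G (U.X w.1 + W.X w.2))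
        (fun w => (U.J w.1, (W.X w.2, W.J w.2)))
      ≤ hq (add U W) G :=
    cent_anti (add U W).hm _ fun w w' hw => by
      simp only [Prod.mk.injEq] at hw
      show (U.J w.1, W.J w.2) = (U.J w'.1, W.J w'.2)
      rw [hw.1, hw.2.2]
  unfold hq at h3 ⊢
  linarith

lemma hh_add_comm (U W : Fam E) (G : AddSubgroup E) : hh (add U W) G = hh (add W U) G := by
  rw [hh_eq, hh_eq]
  congr 1
  have h1 := ent_comp_of_mp (mp_swap U.m W.m) (add W U).J
  have h2 := ent_comp_of_mp (mp_swap U.m W.m) (pr (fun w => q G ((add W U).X w)) (add W U).J)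
  unfold hq cent
  have h3 : ent (prodPM W.m U.m) (add W U).J = ent (add W U).m (add W U).J := rfl
  have h4 : ent (prodPM W.m U.m) (pr (fun w => q G ((add W U).X w)) (add W U).J)
    = ent (add W U).m (pr (fun w => q G ((add W U).X w)) (add W U).J) := rfl
  rw [← h3, ← h4, ← h1, ← h2]
  congr 1
  · refine ent_congr _ fun w w' => ?_
    simp only [pr, add, Prod.swap, Prod.mk.injEq]
    rw [add_comm (W.X w.2), add_comm (W.X w'.2)]
    tauto
  · refine ent_congr _ fun w w' => ?_
    simp only [add, Prod.swap, Prod.mk.injEq]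
    tauto

lemma hh_add_right (U W : Fam E) (G : AddSubgroup E) : hh W G ≤ hh (add U W) G := by
  rw [hh_add_comm]; exact hh_add_left W U G

lemma H_add_comm (U W : Fam E) : H (add U W) = H (add W U) := by
  rw [← hh_bot, ← hh_bot, hh_add_comm]

lemma H_add_left (U W : Fam E) : H U ≤ H (add U W) := by
  rw [← hh_bot, ← hh_bot]; exact hh_add_left U W ⊥

lemma H_add_right (U W : Fam E) : H W ≤ H (add U W) := by
  rw [← hh_bot, ← hh_bot]; exact hh_add_right U W ⊥

/-- L4 -/
lemma hh_kv (U W : Fam E) {G' G : AddSubgroup E} (h : G' ≤ G) :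
    hh (add U W) G - hh (add U W) G' ≤ hh U G - hh U G' := by
  have key : ∀ Y : Fam E, hq Y G' - hq Y G
      = cent Y.m (fun w => q G' (Y.X w)) (pr (fun w => q G (Y.X w)) Y.J) := by
    intro Y
    have h2 := cent_chain Y.m (fun w => q G' (Y.X w)) (fun w => q G (Y.X w)) Y.J
    have h1 : cent Y.m (pr (fun w => q G' (Y.X w)) (fun w => q G (Y.X w))) Y.J
        = cent Y.m (fun w => q G' (Y.X w)) Y.J :=
      cent_congr_left fun w w' _ => by
        rw [pr_eq]
        exact ⟨fun a => a.1, fun a => ⟨a, q_mono h a⟩⟩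
    unfold hq
    linarith
  have k1 := key U
  have k2 := key (add U W)
  have h1 := cent_prod_fst U.hm W.hm (fun w => q G' (U.X w))
    (pr (fun w => q G (U.X w)) U.J) (fun w => (W.X w, W.J w))
  have h2 : cent (prodPM U.m W.m) (fun w => q G' (U.X w.1))
        (fun w => (pr (fun w => q G (U.X w)) U.J w.1, (W.X w.2, W.J w.2)))
      = cent (prodPM U.m W.m) (fun w => q G' (U.X w.1 + W.X w.2))
        (fun w => (pr (fun w => q G (U.X w)) U.J w.1, (W.X w.2, W.J w.2))) :=
    cent_congr_left fun w w' hw => by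
      simp only [Prod.mk.injEq] at hw
      rw [q_eq, q_eq, hw.2.1]
      simp
  have h3 : cent (prodPM U.m W.m) (fun w => q G' (U.X w.1 + W.X w.2))
        (fun w => (pr (fun w => q G (U.X w)) U.J w.1, (W.X w.2, W.J w.2)))
      ≤ cent (add U W).m (fun w => q G' ((add U W).X w))
        (pr (fun w => q G ((add U W).X w)) (add U W).J) :=
    cent_anti (add U W).hm _ fun w w' hw => by
      simp only [Prod.mk.injEq, pr_eq] at hw
      rw [pr_eq]
      obtain ⟨⟨a, b⟩, c, d⟩ := hw
      refine ⟨q_add G _ _ _ _ a (by rw [c]), ?_⟩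
      show (U.J w.1, W.J w.2) = (U.J w'.1, W.J w'.2)
      rw [b, d]
  rw [hh_eq, hh_eq, hh_eq, hh_eq]
  linarith

/-- lower bound for the entropy of a sum through restriction -/
lemma H_add_ge_rs (U W : Fam E) (K : AddSubgroup E) :
    hq U K + H (add (rs U K) (rs W K)) ≤ H (add U W) := by
  have h1 := cent_chain (add U W).m (add U W).X (fun w => q K ((add U W).X w)) (add U W).J
  have h2 : cent (add U W).m (pr (add U W).X (fun w => q K ((add U W).X w))) (add U W).J
      = H (add U W) :=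
    cent_congr_left fun w w' _ => by
      rw [pr_eq]
      exact ⟨fun a => a.1, fun a => ⟨a, by rw [a]⟩⟩
  have h3 : hq U K ≤ hq (add U W) K := by
    have := hh_add_left U W K
    rw [hh_eq, hh_eq] at this
    linarith
  have h4 : H (add (rs U K) (rs W K))
      ≤ cent (add U W).m (add U W).X (pr (fun w => q K ((add U W).X w)) (add U W).J) :=
    cent_anti (add U W).hm _ fun w w' hw => by
      have hw' : (q K (U.X w.1) = q K (U.X w'.1) ∧ U.J w.1 = U.J w'.1) ∧
        (q K (W.X w.2) = q K (W.X w'.2) ∧ W.J w.2 = W.J w'.2) := by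
        simpa [add, rs] using hw
      refine Prod.ext_iff.2 ⟨q_add K _ _ _ _ hw'.1.1 hw'.2.1, ?_⟩
      show (U.J w.1, W.J w.2) = (U.J w'.1, W.J w'.2)
      rw [hw'.1.2, hw'.2.2]
  have h5 : hq (add U W) K = cent (add U W).m (fun w => q K ((add U W).X w)) (add U W).J := rfl
  linarith

/-- L5 (Kaimanovich-Vershik) -/
lemma H_kv (U W Z : Fam E) :
    H (add U (add W Z)) - H (add U W) ≤ H (add W Z) - H W := by
  -- space (U, (W, Z)); c = X_Z, a = X_U, s = the full sum
  let μ : U.Om × W.Om × Z.Om → ℝ := prodPM U.m (prodPM W.m Z.m)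
  have hμ : IsPM μ := isPM_prod U.hm (isPM_prod W.hm Z.hm)
  let a : U.Om × W.Om × Z.Om → E := fun w => U.X w.1
  let c : U.Om × W.Om × Z.Om → E := fun w => Z.X w.2.2
  let s : U.Om × W.Om × Z.Om → E := fun w => U.X w.1 + (W.X w.2.1 + Z.X w.2.2)
  let J : U.Om × W.Om × Z.Om → U.St × W.St × Z.St := fun w => (U.J w.1, W.J w.2.1, Z.J w.2.2)
  have hsub := ent_submod hμ a c (pr s J)
  have e0 : ent μ (pr s J) - ent μ J = H (add U (add W Z)) := rfl
  -- (a, s) given J
  have e1 : ent μ (pr a (pr s J)) - ent μ J = H U + H (add W Z) := by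
    have h1 := cent_prod_pair U.hm (add W Z).hm U.X (add W Z).X U.J (add W Z).J
    have h2 : ent μ (pr a (pr s J))
        = ent μ (pr (fun w => (U.X w.1, (add W Z).X w.2)) (fun w => (U.J w.1, (add W Z).J w.2))) :=
      ent_congr μ fun w w' => by
        simp only [pr, add, a, s, J, Prod.mk.injEq]
        constructor
        · rintro ⟨h1, h2, h3⟩
          rw [h1] at h2
          exact ⟨⟨h1, add_left_cancel h2⟩, h3⟩
        · rintro ⟨⟨h1, h2⟩, h3⟩
          rw [h1, h2]; exact ⟨rfl, rfl, h3⟩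
    unfold H
    rw [← h1, h2]
    rfl
  -- the law of (U, W, Z) regrouped as ((U, W), Z)
  have hmp : MP (prodPM (prodPM U.m W.m) Z.m) (fun w => (w.1.1, (w.1.2, w.2))) μ :=
    mp_assoc U.m W.m Z.m
  have e2 : ent μ (pr c (pr s J)) - ent μ J = H Z + H (add U W) := by
    have h1 := cent_prod_pair (add U W).hm Z.hm (add U W).X Z.X (add U W).J Z.J
    rw [← ent_comp_of_mp hmp, ← ent_comp_of_mp hmp]
    have h2 : ent (prodPM (prodPM U.m W.m) Z.m) (fun w => pr c (pr s J) (w.1.1, (w.1.2, w.2)))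
        = ent (prodPM (add U W).m Z.m) (pr (fun w => ((add U W).X w.1, Z.X w.2))
          (fun w => ((add U W).J w.1, Z.J w.2))) :=
      ent_congr _ fun w w' => by
        simp only [pr, add, c, s, J, Prod.mk.injEq]
        constructor
        · rintro ⟨h1, h2, h3, h4, h5⟩
          rw [h1, ← add_assoc, ← add_assoc] at h2
          exact ⟨⟨add_right_cancel h2, h1⟩, ⟨h3, h4⟩, h5⟩
        · rintro ⟨⟨h1, h2⟩, ⟨h3, h4⟩, h5⟩
          rw [← add_assoc, ← add_assoc, h1, h2]; exact ⟨rfl, rfl, h3, h4, h5⟩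
    have h3 : ent (prodPM (prodPM U.m W.m) Z.m) (fun w => J (w.1.1, (w.1.2, w.2)))
        = ent (prodPM (add U W).m Z.m) (fun w => ((add U W).J w.1, Z.J w.2)) :=
      ent_congr _ fun w w' => by
        simp only [add, J, Prod.mk.injEq]
        tauto
    have h4 : H Z + H (add U W) = H (add U W) + H Z := add_comm _ _
    rw [h4]
    unfold H
    rw [← h1, h2, h3]
    rfl
  -- (a, c, s) given J
  have e3 : ent μ (pr (pr a c) (pr s J)) - ent μ J = H U + (H W + H Z) := by
    have h0 := cent_prod_pair W.hm Z.hm W.X Z.X W.J Z.J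
    have h1 := cent_prod_pair U.hm (add W Z).hm U.X (fun w => (W.X w.1, Z.X w.2)) U.J (add W Z).J
    have h2 : ent μ (pr (pr a c) (pr s J))
        = ent μ (pr (fun w => (U.X w.1, (fun w : W.Om × Z.Om => (W.X w.1, Z.X w.2)) w.2))
          (fun w => (U.J w.1, (add W Z).J w.2))) :=
      ent_congr μ fun w w' => by
        simp only [pr, add, a, c, s, J, Prod.mk.injEq]
        constructor
        · rintro ⟨⟨h1, h2⟩, h3, h4⟩
          rw [h1, h2] at h3
          exact ⟨⟨h1, add_right_cancel (add_left_cancel h3), h2⟩, h4⟩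
        · rintro ⟨⟨h1, h2, h3⟩, h4⟩
          rw [h1, h2, h3]; exact ⟨⟨rfl, rfl⟩, rfl, h4⟩
    unfold H
    rw [← h0]
    have h5 : cent (prodPM W.m Z.m) (fun w => (W.X w.1, Z.X w.2)) (fun w => (W.J w.1, Z.J w.2))
      = cent (add W Z).m (fun w => (W.X w.1, Z.X w.2)) (add W Z).J := rfl
    rw [h5, ← h1, h2]
    rfl
  linarith

section thr
variable [Finite E]

/-- THRESHOLD subgroup -/
lemma threshold {U : Fam E} {V : AddSubgroup E} (hU : In U V) (σ : ℝ) :
    ∃ W : AddSubgroup E, W ≤ V ∧ σ * (ls V - ls W) ≤ ls V - hh U W ∧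
      (∀ W' : AddSubgroup E, W' ≤ W → hh U W - hh U W' ≤ σ * (ls W - ls W')) ∧
      Spr (rs U W) W σ := by
  classical
  have hfin : Finite {W : AddSubgroup E // W ≤ V} := inferInstance
  have hne : Nonempty {W : AddSubgroup E // W ≤ V} := ⟨⟨V, le_rfl⟩⟩
  obtain ⟨⟨W, hWV⟩, hW⟩ := Finite.exists_min
    (fun W : {W : AddSubgroup E // W ≤ V} => hh U W.1 - σ * ls W.1)
  have h0 := hW ⟨V, le_rfl⟩
  simp only [hh_of_In hU] at h0
  have h1 : ∀ W' : AddSubgroup E, W' ≤ W → hh U W - hh U W' ≤ σ * (ls W - ls W') := by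
    intro W' hW'
    have := hW ⟨W', hW'.trans hWV⟩
    simp only at this
    linarith
  refine ⟨W, hWV, by linarith, h1, ?_⟩
  intro W' hW'
  rw [hh_rs U hW']
  have := h1 W' hW'
  linarith

/-- size bound for a threshold subgroup -/
lemma threshold_size {U : Fam E} {V W : AddSubgroup E} {σ : ℝ} (hσ : 0 < σ)
    (h : σ * (ls V - ls W) ≤ ls V - hh U W) : ls V - ls W ≤ (ls V - H U) / σ := by
  rw [le_div_iff₀ hσ, mul_comm]
  have := H_le_hh U W
  linarith

/-- LEMMA C -/
lemma lemC {Y Y' : Fam E} {V Γ G : AddSubgroup E} {σ : ℝ} (hΓ : Γ ≤ V) (hG : G ≤ V)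
    (hσ : 0 ≤ σ)
    (h : ∀ W' : AddSubgroup E, W' ≤ Γ → hh Y Γ - hh Y W' ≤ σ * (ls Γ - ls W')) :
    hh Y' Γ ≤ hh (add Y Y') G + σ * (ls V - ls G) := by
  have h1 := hh_add_right Y Y' Γ
  have h2 := hh_kv Y Y' (G' := Γ ⊓ G) (G := Γ) inf_le_left
  have h3 := h (Γ ⊓ G) inf_le_left
  have h4 := hh_mono (add Y Y') (V := Γ ⊓ G) (W := G) inf_le_right
  have h5 := mul_le_mul_of_nonneg_left (ls_inf V Γ G hΓ hG) hσ
  linarith

end thr

end

end F2
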