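import Pool.Agent.H9.F2.L2

/-! Isomorphic families; restriction commutes with `fold` and `add`-type constructions. -/

set_option autoImplicit false

namespace F2

open H2INV H9F2 Finset

noncomputable section

variable {E : Type} [AddCommGroup E]

omit [AddCommGroup E] in
lemma Eqv.mp {U U' : Fam E} (e : U.Om ≃ U'.Om) (h : ∀ w, U'.m (e w) = U.m w) :
    MP U.m (fun w => e w) U'.m := mp_of_equiv e h

omit [AddCommGroup E] in
lemma Eqv.refl (U : Fam E) : Eqv U U := ⟨Equiv.refl _, fun _ => rfl, fun _ => rfl, fun _ _ => Iff.rfl⟩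

omit [AddCommGroup E] in
lemma Eqv.symm {U U' : Fam E} (h : Eqv U U') : Eqv U' U := by
  obtain ⟨e, h1, h2, h3⟩ := h
  refine ⟨e.symm, fun w => ?_, fun w => ?_, fun v w => ?_⟩
  · rw [← h1, e.apply_symm_apply]
  · rw [← h2, e.apply_symm_apply]
  · rw [← h3, e.apply_symm_apply, e.apply_symm_apply]

omit [AddCommGroup E] in
lemma Eqv.trans {U U' U'' : Fam E} (h : Eqv U U') (h' : Eqv U' U'') : Eqv U U'' := by
  obtain ⟨e, h1, h2, h3⟩ := h
  obtain ⟨f, g1, g2, g3⟩ := h'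
  refine ⟨e.trans f, fun w => ?_, fun w => ?_, fun v w => ?_⟩
  · rw [Equiv.trans_apply, g1, h1]
  · rw [Equiv.trans_apply, g2, h2]
  · rw [Equiv.trans_apply, Equiv.trans_apply, g3, h3]

omit [AddCommGroup E] in
/-- transport of conditional entropies of functions of `X` -/
lemma Eqv.cent {U U' : Fam E} (h : Eqv U U') {γ : Type*} (f : E → γ) :
    cent U.m (fun w => f (U.X w)) U.J = cent U'.m (fun w => f (U'.X w)) U'.J := by
  obtain ⟨e, h1, h2, h3⟩ := h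
  have k1 := ent_comp_of_mp (Eqv.mp e h1) U'.J
  have k2 := ent_comp_of_mp (Eqv.mp e h1) (pr (fun w => f (U'.X w)) U'.J)
  unfold H2INV.cent
  rw [← k1, ← k2]
  congr 1
  · refine ent_congr _ fun w w' => ?_
    simp only [pr, Prod.mk.injEq, h2, h3]
  · refine ent_congr _ fun w w' => ?_
    rw [h3]

lemma Eqv.hq {U U' : Fam E} (h : Eqv U U') (G : AddSubgroup E) : F2.hq U G = F2.hq U' G :=
  h.cent (fun x => q G x)

lemma Eqv.hh {U U' : Fam E} (h : Eqv U U') (G : AddSubgroup E) : F2.hh U G = F2.hh U' G := by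
  rw [hh_eq, hh_eq, h.hq]

omit [AddCommGroup E] in
lemma Eqv.H {U U' : Fam E} (h : Eqv U U') : F2.H U = F2.H U' := h.cent (fun x => x)

lemma Eqv.In {U U' : Fam E} (h : Eqv U U') {V : AddSubgroup E} (hU : F2.In U V) : F2.In U' V := by
  obtain ⟨e, h1, h2, h3⟩ := h
  intro v w hJ
  have k := hU (e.symm v) (e.symm w) (by
    rw [← h3, e.apply_symm_apply, e.apply_symm_apply]; exact hJ)
  rw [← h2, ← h2, e.apply_symm_apply, e.apply_symm_apply] at k
  exact k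

lemma Eqv.Spr {U U' : Fam E} (h : Eqv U U') {V : AddSubgroup E} {s : ℝ} (hU : F2.Spr U V s) :
    F2.Spr U' V s := fun W hW => by
  rw [← h.hh]; exact hU W hW

lemma Eqv.add {U U' W W' : Fam E} (h : Eqv U U') (h' : Eqv W W') :
    Eqv (F2.add U W) (F2.add U' W') := by
  obtain ⟨e, h1, h2, h3⟩ := h
  obtain ⟨f, g1, g2, g3⟩ := h'
  refine ⟨Equiv.prodCongr e f, fun w => ?_, fun w => ?_, fun v w => ?_⟩
  · show U'.m (e w.1) * W'.m (f w.2) = U.m w.1 * W.m w.2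
    rw [h1, g1]
  · show U'.X (e w.1) + W'.X (f w.2) = U.X w.1 + W.X w.2
    rw [h2, g2]
  · show (U'.J (e v.1), W'.J (f v.2)) = (U'.J (e w.1), W'.J (f w.2)) ↔
      (U.J v.1, W.J v.2) = (U.J w.1, W.J w.2)
    simp only [Prod.mk.injEq, h3, g3]

lemma Eqv.fold {U U' W W' : Fam E} (h : Eqv U U') (h' : Eqv W W') :
    Eqv (F2.fold U W) (F2.fold U' W') := by
  obtain ⟨e, h1, h2, h3⟩ := h
  obtain ⟨f, g1, g2, g3⟩ := h'
  refine ⟨Equiv.prodCongr e f, fun w => ?_, fun w => ?_, fun v w => ?_⟩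
  · show U'.m (e w.1) * W'.m (f w.2) = U.m w.1 * W.m w.2
    rw [h1, g1]
  · show U'.X (e w.1) = U.X w.1
    rw [h2]
  · show (U'.X (e v.1) + W'.X (f v.2), U'.J (e v.1), W'.J (f v.2)) =
      (U'.X (e w.1) + W'.X (f w.2), U'.J (e w.1), W'.J (f w.2)) ↔
      (U.X v.1 + W.X v.2, U.J v.1, W.J v.2) = (U.X w.1 + W.X w.2, U.J w.1, W.J w.2)
    simp only [Prod.mk.injEq, h2, g2, h3, g3]

lemma Eqv.rs {U U' : Fam E} (h : Eqv U U') (G : AddSubgroup E) :
    Eqv (F2.rs U G) (F2.rs U' G) := by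
  obtain ⟨e, h1, h2, h3⟩ := h
  have key : ∀ v w : U.Om, (q G (U'.X (e v)), U'.J (e v)) = (q G (U'.X (e w)), U'.J (e w)) ↔
      (q G (U.X v), U.J v) = (q G (U.X w), U.J w) := fun v w => by
    simp only [Prod.mk.injEq, h2, h3]
  exact ⟨e, h1, h2, key⟩

/-- L11: restriction commutes with the self fold -/
lemma rs_fold (U W : Fam E) (G : AddSubgroup E) :
    Eqv (rs (fold U W) G) (fold (rs U G) (rs W G)) := by
  refine ⟨Equiv.refl _, fun _ => rfl, fun _ => rfl, fun v w => ?_⟩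
  show ((U.X v.1 + W.X v.2), (q G (U.X v.1), U.J v.1), (q G (W.X v.2), W.J v.2)) =
    ((U.X w.1 + W.X w.2), (q G (U.X w.1), U.J w.1), (q G (W.X w.2), W.J w.2)) ↔
    (q G (U.X v.1), (U.X v.1 + W.X v.2), U.J v.1, W.J v.2) =
    (q G (U.X w.1), (U.X w.1 + W.X w.2), U.J w.1, W.J w.2)
  simp only [Prod.mk.injEq]
  constructor
  · rintro ⟨a, ⟨b, c⟩, d, e⟩
    exact ⟨b, a, c, e⟩
  · rintro ⟨b, a, c, e⟩
    refine ⟨a, ⟨b, c⟩, ?_, e⟩
    rw [q_eq] at b ⊢
    have : W.X v.2 - W.X w.2 = (U.X v.1 + W.X v.2) - (U.X w.1 + W.X w.2)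
        - (U.X v.1 - U.X w.1) := by abel
    rw [this, a]
    exact G.sub_mem (by simp) b

/-- restriction of a restriction -/
lemma rs_rs (U : Fam E) {G K : AddSubgroup E} (h : G ≤ K) : Eqv (rs (rs U K) G) (rs U G) := by
  have key : ∀ v w : U.Om, (q G (U.X v), U.J v) = (q G (U.X w), U.J w) ↔
      (q G (U.X v), q K (U.X v), U.J v) = (q G (U.X w), q K (U.X w), U.J w) := fun v w => by
    simp only [Prod.mk.injEq]
    exact ⟨fun a => ⟨a.1, q_mono h a.1, a.2⟩, fun a => ⟨a.1, a.2.2⟩⟩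
  exact ⟨Equiv.refl _, fun _ => rfl, fun _ => rfl, key⟩

/-- commutativity of the sum -/
lemma add_comm_eqv (U W : Fam E) : Eqv (add U W) (add W U) := by
  refine ⟨Equiv.prodComm _ _, fun w => ?_, fun w => ?_, fun v w => ?_⟩
  · show W.m w.2 * U.m w.1 = U.m w.1 * W.m w.2
    ring
  · show W.X w.2 + U.X w.1 = U.X w.1 + W.X w.2
    abel
  · show (W.J v.2, U.J v.1) = (W.J w.2, U.J w.1) ↔ (U.J v.1, W.J v.2) = (U.J w.1, W.J w.2)
    simp only [Prod.mk.injEq]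
    tauto

/-- associativity of the sum -/
lemma add_assoc_eqv (U W Z : Fam E) : Eqv (add (add U W) Z) (add U (add W Z)) := by
  refine ⟨Equiv.prodAssoc _ _ _, fun w => ?_, fun w => ?_, fun v w => ?_⟩
  · show U.m w.1.1 * (W.m w.1.2 * Z.m w.2) = U.m w.1.1 * W.m w.1.2 * Z.m w.2
    ring
  · show U.X w.1.1 + (W.X w.1.2 + Z.X w.2) = U.X w.1.1 + W.X w.1.2 + Z.X w.2
    abel
  · show (U.J v.1.1, W.J v.1.2, Z.J v.2) = (U.J w.1.1, W.J w.1.2, Z.J w.2) ↔
      ((U.J v.1.1, W.J v.1.2), Z.J v.2) = ((U.J w.1.1, W.J w.1.2), Z.J w.2)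
    simp only [Prod.mk.injEq]
    tauto

end

end F2
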